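import Pool.Agent.TH98.GS.Stable
import Pool.Agent.TH98.GS.Raag

/-!
# MP_719818_al, Q1: growth of stable subgroups, the answer is negative

The group is `G = (F₂ × ℤ) * (F₂ × ℤ)`, the right-angled Artin group whose defining graph is the
disjoint union of two paths with three vertices, with its standard generators.

Sketch of the proof. A stable subgroup `H` meets the conjugates of the factors `F₂ × ℤ`
trivially: an element of infinite order in a factor has powers which are joined to `1` by
quasi-geodesics making long detours. Hence each factor acts freely on `G/H`. Let `|z| < 1` be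
positive. As `F₂` is not amenable, the operator `T = ∑ z^|k| k` (sum over the nontrivial elements
`k` of a factor `F₂ × ℤ`) on `ℓ²(G/H)` has norm at most `p(z) - z/2`, where
`p(z) = (1+z)²/((1-3z)(1-z)) - 1` is the sum of the `z^|k|`: the four letters of `F₂` contribute
at most `7z/2` instead of `4z` (Schur test with the weight `2^(-|·|)`). So
`∑_{h ∈ H} z^|h| ≤ 1 + 2 ∑_n (p(z) - z/2)^n`, which converges for `z = 0.109`, while
`∑_{g ∈ G} z^|g|` diverges for `z = 0.108` as `p(0.108) ≥ 1`. The Morse local-to-global property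
holds since in a Morse quasi-geodesic of `G` there are cut points at bounded gaps.
-/

set_option autoImplicit false

namespace Pool.Agent.Results.MP_719818_al.NoGrowthExhaustion

open scoped ENNReal Topology
open Pool.Agent.H659R3.MorseLim Pool.Agent.TH98.GS

theorem growth_ne_top : growth A ⊤ ≠ ⊤ := by
  have hz : ENNReal.ofReal (1 / 20) ≠ 0 := by simp
  have hz1 : ENNReal.ofReal (1 / 20) ≤ 1 := by
    rw [← ENNReal.ofReal_one]
    exact ENNReal.ofReal_le_ofReal (by norm_num)
  have hp : ∑' k, mw (ENNReal.ofReal (1 / 20)) k ≤ ENNReal.ofReal (1 / 2) := by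
    have h := tsum_mw (ENNReal.ofReal (1 / 20))
    have e4 : (4 : ℝ≥0∞) = ENNReal.ofReal 4 := by norm_num
    have e3 : (3 : ℝ≥0∞) = ENNReal.ofReal 3 := by norm_num
    have e1 : (1 : ℝ≥0∞) = ENNReal.ofReal 1 := by norm_num
    have i1 : (1 - ENNReal.ofReal (1 / 20))⁻¹ = ENNReal.ofReal (20 / 19) := by
      rw [e1, ← ENNReal.ofReal_sub _ (by norm_num), ← ENNReal.ofReal_inv_of_pos (by norm_num)]
      norm_num
    have i2 : (1 - 3 * ENNReal.ofReal (1 / 20))⁻¹ = ENNReal.ofReal (20 / 17) := by
      rw [e1, e3, ← ENNReal.ofReal_mul (by norm_num), ← ENNReal.ofReal_sub _ (by norm_num),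
        ← ENNReal.ofReal_inv_of_pos (by norm_num)]
      norm_num
    rw [PF_le, PZ_eq, i1, i2] at h
    have h2 : (1 + 4 * ENNReal.ofReal (1 / 20) * ENNReal.ofReal (20 / 17)) *
        (ENNReal.ofReal (20 / 19) + ENNReal.ofReal (1 / 20) * ENNReal.ofReal (20 / 19)) ≤
        1 + ENNReal.ofReal (1 / 2) := by
      rw [e4, e1, ← ENNReal.ofReal_mul (by norm_num), ← ENNReal.ofReal_mul (by norm_num),
        ← ENNReal.ofReal_mul (by norm_num), ← ENNReal.ofReal_add (by norm_num) (by norm_num),
        ← ENNReal.ofReal_add (by norm_num) (by norm_num), ← ENNReal.ofReal_mul (by norm_num),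
        ← ENNReal.ofReal_add (by norm_num) (by norm_num)]
      exact ENNReal.ofReal_le_ofReal (by norm_num)
    rw [← h] at h2
    exact (ENNReal.add_le_add_iff_left ENNReal.one_ne_top).1 h2
  have hC : (2 * (1 - ENNReal.ofReal (1 / 2))⁻¹ : ℝ≥0∞) ≠ ⊤ := by
    refine ENNReal.mul_ne_top (by norm_num) (ENNReal.inv_ne_top.2 (tsub_pos_of_lt ?_).ne')
    rw [← ENNReal.ofReal_one]
    exact (ENNReal.ofReal_lt_ofReal_iff one_pos).2 (by norm_num)
  have hs : ∑' g : FP KK, ENNReal.ofReal (1 / 20) ^ A.len g ≤
      2 * (1 - ENNReal.ofReal (1 / 2))⁻¹ := by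
    calc ∑' g : FP KK, ENNReal.ofReal (1 / 20) ^ A.len g
        ≤ ∑' g : FP KK, ∑' n, (uu (ENNReal.ofReal (1 / 20)) n true g +
            uu (ENNReal.ofReal (1 / 20)) n false g) :=
          ENNReal.tsum_le_tsum fun g => pow_le_uu _ g
      _ = ∑' n, (∑' g : FP KK, uu (ENNReal.ofReal (1 / 20)) n true g +
            ∑' g : FP KK, uu (ENNReal.ofReal (1 / 20)) n false g) := by
          rw [ENNReal.tsum_comm]
          congr 1
          funext n
          rw [ENNReal.tsum_add]
      _ ≤ ∑' n, 2 * ENNReal.ofReal (1 / 2) ^ n := by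
          refine ENNReal.tsum_le_tsum fun n => ?_
          rw [tsum_uu, tsum_uu, ← two_mul]
          gcongr
      _ = 2 * (1 - ENNReal.ofReal (1 / 2))⁻¹ := by
          rw [ENNReal.tsum_mul_left, ENNReal.tsum_geometric]
  have h := growth_le (A := A) (H := ⊤) hz hz1 hC (by
    refine le_trans ?_ hs
    exact ENNReal.tsum_comp_le_tsum_of_injective (f := fun h : (⊤ : Subgroup (FP KK)) => (h : FP KK))
      Subtype.val_injective (fun g => ENNReal.ofReal (1 / 20) ^ A.len g))
  exact ne_top_of_le_ne_top (ENNReal.inv_ne_top.2 hz) h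

/-- There are a right-angled Artin group `G` (whose defining graph is the disjoint union of two
paths with three vertices), with standard generating set `S`, such that `G` is Morse
local-to-global, is not virtually cyclic and contains a Morse element, but every stable subgroup
`H` of `G` has `λ_S(H) ≤ 1000/109 < 1000/108 ≤ λ_S(G) < ∞`. In particular there is no sequence of
stable subgroups of infinite index whose growth rates converge to `λ_S(G)`. -/
theorem result :
    ∃ (G : Type) (_ : Group G) (A : FinGen G),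
      (∃ e : RAAG twoPaths ≃* G,
        e '' Set.range (PresentedGroup.of (rels := raagRels twoPaths)) = A.S) ∧
      MorseLocalToGlobal A ∧
      (¬ ∃ C : Subgroup G, C.FiniteIndex ∧ IsCyclic C) ∧
      (∃ g : G, IsMorseElement A g) ∧
      (∀ H : Subgroup G, IsStable A H → growth A H ≤ ENNReal.ofReal (1000 / 109)) ∧
      ENNReal.ofReal (1000 / 108) ≤ growth A ⊤ ∧ growth A ⊤ ≠ ⊤ ∧
      ¬ ∃ H : ℕ → Subgroup G, (∀ i, IsStable A (H i) ∧ (H i).index = 0) ∧
        Filter.Tendsto (fun i => growth A (H i)) Filter.atTop (𝓝 (growth A ⊤)) := by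
  have i1 : z1⁻¹ = ENNReal.ofReal (1000 / 109) := by
    rw [z1, ← ENNReal.ofReal_inv_of_pos (by norm_num)]
    norm_num
  have i2 : z2⁻¹ = ENNReal.ofReal (1000 / 108) := by
    rw [z2, ← ENNReal.ofReal_inv_of_pos (by norm_num)]
    norm_num
  have h1 : ∀ H : Subgroup (FP KK), IsStable A H → growth A H ≤ z1⁻¹ := fun H hH =>
    growth_H H fun i g k hk => stable_trivial hH i g k hk
  refine ⟨FP KK, inferInstance, A, ⟨raagEquiv, raagEquiv_image⟩, mltg, not_virtually_cyclic,
    ⟨g0, g0_morse⟩, ?_, ?_, growth_ne_top, ?_⟩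
  · intro H hH
    rw [← i1]
    exact h1 H hH
  · rw [← i2]
    exact growth_G
  · rintro ⟨H, hH, hlim⟩
    have h2 : growth A ⊤ ≤ z1⁻¹ := le_of_tendsto' hlim fun i => h1 (H i) (hH i).1
    exact absurd (growth_G.trans h2) (not_le.2 z_lt)

end Pool.Agent.Results.MP_719818_al.NoGrowthExhaustion
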